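import Pool.Agent.Lib.MP_ba0fa5_ag.Iface

/-!
Module NSIEVE: Selberg's upper bound sieve.

Squarefree numbers are represented by the set of their prime factors.
-/

set_option autoImplicit false

namespace Pool.Agent.Lib.MP_ba0fa5_ag.H48

open Finset

/-! ### The optimal weights -/

theorem sum_Icc_neg_one {C F : Finset ℕ} (h : C ⊆ F) :
    ∑ A ∈ Finset.Icc C F, (-1 : ℝ) ^ A.card = if C = F then (-1) ^ C.card else 0 := by
  rw [Finset.Icc_eq_image_powerset h, Finset.sum_image]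
  · have h1 : ∀ E ∈ (F \ C).powerset,
        (-1 : ℝ) ^ (C ∪ E).card = (-1) ^ C.card * (-1) ^ E.card := by
      intro E hE
      rw [Finset.card_union_of_disjoint, pow_add]
      exact Finset.disjoint_of_subset_right (Finset.mem_powerset.1 hE) Finset.disjoint_sdiff
    rw [Finset.sum_congr rfl h1, ← Finset.mul_sum]
    have h2 : ∑ E ∈ (F \ C).powerset, (-1 : ℝ) ^ E.card = if F \ C = ∅ then 1 else 0 := by
      have h3 := Finset.sum_powerset_neg_one_pow_card (x := F \ C)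
      exact_mod_cast h3
    rw [h2]
    by_cases hCF : C = F
    · rw [if_pos hCF, hCF, Finset.sdiff_self, if_pos rfl, mul_one]
    · rw [if_neg hCF, if_neg, mul_zero]
      intro h4
      exact hCF (Finset.Subset.antisymm h (Finset.sdiff_eq_empty_iff_subset.1 h4))
  · intro E hE E' hE' hEE
    have e1 : Disjoint C E :=
      Finset.disjoint_of_subset_right (Finset.mem_powerset.1 hE) Finset.disjoint_sdiff
    have e2 : Disjoint C E' :=
      Finset.disjoint_of_subset_right (Finset.mem_powerset.1 hE') Finset.disjoint_sdiff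
    have e3 : (C ∪ E) \ C = (C ∪ E') \ C := by
      have : C ∪ E = C ∪ E' := hEE
      rw [this]
    rwa [Finset.union_sdiff_cancel_left e1, Finset.union_sdiff_cancel_left e2] at e3

section Weights

variable (𝒟 : Finset (Finset ℕ)) (ν g : ℕ → ℝ)

/-- the sum `J` -/
noncomputable def J : ℝ := ∑ C ∈ 𝒟, ∏ l ∈ C, g l

/-- the weights -/
noncomputable def lam (A : Finset ℕ) : ℝ :=
  (-1) ^ A.card * (∏ l ∈ A, ν l)⁻¹ * (∑ C ∈ 𝒟.filter (fun C => A ⊆ C), ∏ l ∈ C, g l) / J 𝒟 g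

variable {𝒟 ν g}

theorem mobius (hdown : ∀ A ∈ 𝒟, ∀ B ⊆ A, B ∈ 𝒟) (hν : ∀ A ∈ 𝒟, ∏ l ∈ A, ν l ≠ 0)
    {C : Finset ℕ} (hC : C ∈ 𝒟) :
    ∑ A ∈ 𝒟.filter (fun A => C ⊆ A), lam 𝒟 ν g A * ∏ l ∈ A, ν l =
      (-1) ^ C.card * (∏ l ∈ C, g l) / J 𝒟 g := by
  have h1 : ∀ A ∈ 𝒟.filter (fun A => C ⊆ A), lam 𝒟 ν g A * ∏ l ∈ A, ν l =
      (∑ F ∈ 𝒟, if A ⊆ F then (-1) ^ A.card * ∏ l ∈ F, g l else 0) / J 𝒟 g := by
    intro A hA
    have hA' := hν A (Finset.mem_filter.1 hA).1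
    rw [lam, ← Finset.sum_filter, ← Finset.mul_sum]
    field_simp
  rw [Finset.sum_congr rfl h1, ← Finset.sum_div, Finset.sum_comm]
  congr 1
  have h2 : ∀ F ∈ 𝒟, (∑ A ∈ 𝒟.filter (fun A => C ⊆ A),
      if A ⊆ F then (-1 : ℝ) ^ A.card * ∏ l ∈ F, g l else 0) =
      if C = F then (-1) ^ C.card * ∏ l ∈ C, g l else 0 := by
    intro F hF
    rw [← Finset.sum_filter, Finset.filter_filter]
    have h3 : 𝒟.filter (fun A => C ⊆ A ∧ A ⊆ F) = Finset.Icc C F := by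
      ext A
      rw [Finset.mem_filter, Finset.mem_Icc]
      constructor
      · rintro ⟨-, h⟩
        exact h
      · intro h
        exact ⟨hdown F hF A h.2, h⟩
    rw [h3, ← Finset.sum_mul]
    by_cases hCF : C ⊆ F
    · rw [sum_Icc_neg_one hCF]
      by_cases h4 : C = F
      · rw [if_pos h4, if_pos h4, h4]
      · rw [if_neg h4, if_neg h4, zero_mul]
    · rw [Finset.Icc_eq_empty (fun h => hCF h), Finset.sum_empty, zero_mul, if_neg]
      rintro rfl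
      exact hCF (Finset.Subset.refl _)
  rw [Finset.sum_congr rfl h2, Finset.sum_ite_eq, if_pos hC]

/-- the diagonalisation of the quadratic form -/
theorem quad (hdown : ∀ A ∈ 𝒟, ∀ B ⊆ A, B ∈ 𝒟)
    (hν : ∀ A ∈ 𝒟, ∀ l ∈ A, ν l ≠ 0) (hgν : ∀ A ∈ 𝒟, ∀ l ∈ A, 1 + (g l)⁻¹ = (ν l)⁻¹)
    (w : Finset ℕ → ℝ) :
    ∑ A ∈ 𝒟, ∑ B ∈ 𝒟, w A * w B * ∏ l ∈ A ∪ B, ν l =
      ∑ C ∈ 𝒟, (∏ l ∈ C, g l)⁻¹ * (∑ A ∈ 𝒟.filter (fun A => C ⊆ A), w A * ∏ l ∈ A, ν l) ^ 2 := by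
  have h1 : ∀ C ∈ 𝒟, (∏ l ∈ C, g l)⁻¹ *
      (∑ A ∈ 𝒟.filter (fun A => C ⊆ A), w A * ∏ l ∈ A, ν l) ^ 2 =
      ∑ A ∈ 𝒟, ∑ B ∈ 𝒟, if C ⊆ A ∩ B then (∏ l ∈ C, g l)⁻¹ *
        ((w A * ∏ l ∈ A, ν l) * (w B * ∏ l ∈ B, ν l)) else 0 := by
    intro C _
    rw [sq, Finset.sum_filter, Finset.sum_mul_sum, Finset.mul_sum]
    refine Finset.sum_congr rfl fun A _ => ?_
    rw [Finset.mul_sum]
    refine Finset.sum_congr rfl fun B _ => ?_
    by_cases hA : C ⊆ A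
    · by_cases hB : C ⊆ B
      · rw [if_pos hA, if_pos hB, if_pos (Finset.subset_inter hA hB)]
      · have hAB : ¬ C ⊆ A ∩ B := fun h => hB (h.trans Finset.inter_subset_right)
        rw [if_neg hB, if_neg hAB, mul_zero, mul_zero]
    · have hAB : ¬ C ⊆ A ∩ B := fun h => hA (h.trans Finset.inter_subset_left)
      rw [if_neg hA, if_neg hAB, zero_mul, mul_zero]
  rw [Finset.sum_congr rfl h1]
  conv_rhs => rw [Finset.sum_comm]
  refine Finset.sum_congr rfl fun A hA => ?_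
  conv_rhs => rw [Finset.sum_comm]
  refine Finset.sum_congr rfl fun B hB => ?_
  rw [← Finset.sum_filter]
  have h2 : 𝒟.filter (fun C => C ⊆ A ∩ B) = (A ∩ B).powerset := by
    ext C
    rw [Finset.mem_filter, Finset.mem_powerset]
    exact ⟨fun h => h.2, fun h => ⟨hdown A hA C (h.trans Finset.inter_subset_left), h⟩⟩
  rw [h2, ← Finset.sum_mul]
  have h3 : ∑ C ∈ (A ∩ B).powerset, (∏ l ∈ C, g l)⁻¹ = (∏ l ∈ A ∩ B, ν l)⁻¹ := by
    have h4 : ∀ C ∈ (A ∩ B).powerset, (∏ l ∈ C, g l)⁻¹ = ∏ l ∈ C, (g l)⁻¹ := fun C _ =>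
      (Finset.prod_inv_distrib _).symm
    rw [Finset.sum_congr rfl h4, ← Finset.prod_one_add, ← Finset.prod_inv_distrib]
    exact Finset.prod_congr rfl fun l hl => hgν A hA l (Finset.inter_subset_left hl)
  have h5 : (∏ l ∈ A ∩ B, ν l) ≠ 0 := Finset.prod_ne_zero_iff.2 fun l hl =>
    hν A hA l (Finset.inter_subset_left hl)
  rw [h3, inv_mul_eq_div, eq_div_iff h5]
  have h6 := Finset.prod_union_inter (s₁ := A) (s₂ := B) (f := ν)
  calc w A * w B * (∏ l ∈ A ∪ B, ν l) * ∏ l ∈ A ∩ B, ν l =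
      w A * w B * ((∏ l ∈ A ∪ B, ν l) * ∏ l ∈ A ∩ B, ν l) := by ring
    _ = w A * w B * ((∏ l ∈ A, ν l) * ∏ l ∈ B, ν l) := by rw [h6]
    _ = _ := by ring

theorem main_term (hdown : ∀ A ∈ 𝒟, ∀ B ⊆ A, B ∈ 𝒟) (hg : ∀ A ∈ 𝒟, ∀ l ∈ A, 0 < g l)
    (hν : ∀ A ∈ 𝒟, ∀ l ∈ A, 0 < ν l) (hgν : ∀ A ∈ 𝒟, ∀ l ∈ A, 1 + (g l)⁻¹ = (ν l)⁻¹)
    (hJ : 0 < J 𝒟 g) :
    ∑ A ∈ 𝒟, ∑ B ∈ 𝒟, lam 𝒟 ν g A * lam 𝒟 ν g B * ∏ l ∈ A ∪ B, ν l = 1 / J 𝒟 g := by
  rw [quad hdown (fun A hA l hl => (hν A hA l hl).ne') hgν]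
  have h1 : ∀ C ∈ 𝒟, (∏ l ∈ C, g l)⁻¹ *
      (∑ A ∈ 𝒟.filter (fun A => C ⊆ A), lam 𝒟 ν g A * ∏ l ∈ A, ν l) ^ 2 =
      (∏ l ∈ C, g l) / J 𝒟 g ^ 2 := by
    intro C hC
    have h2 : 0 < ∏ l ∈ C, g l := Finset.prod_pos fun l hl => hg C hC l hl
    rw [mobius hdown (fun A hA => (Finset.prod_pos fun l hl => hν A hA l hl).ne') hC, div_pow,
      mul_pow, ← pow_mul, mul_comm C.card 2, pow_mul, neg_one_sq, one_pow, one_mul]
    field_simp
  rw [Finset.sum_congr rfl h1, ← Finset.sum_div]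
  show J 𝒟 g / J 𝒟 g ^ 2 = 1 / J 𝒟 g
  field_simp

theorem lam_empty (hJ : J 𝒟 g ≠ 0) : lam 𝒟 ν g ∅ = 1 := by
  have h1 : 𝒟.filter (fun C => ∅ ⊆ C) = 𝒟 := Finset.filter_true_of_mem fun C _ =>
    Finset.empty_subset C
  rw [lam, h1, Finset.card_empty, pow_zero, Finset.prod_empty, inv_one, one_mul, one_mul]
  exact div_self hJ

theorem abs_lam_le (hdown : ∀ A ∈ 𝒟, ∀ B ⊆ A, B ∈ 𝒟) (hg : ∀ A ∈ 𝒟, ∀ l ∈ A, 0 < g l)
    (hν : ∀ A ∈ 𝒟, ∀ l ∈ A, 0 < ν l) (hgν : ∀ A ∈ 𝒟, ∀ l ∈ A, 1 + (g l)⁻¹ = (ν l)⁻¹)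
    (hJ : 0 < J 𝒟 g) {A : Finset ℕ} (hA : A ∈ 𝒟) : |lam 𝒟 ν g A| ≤ 1 := by
  have hpos : ∀ C ∈ 𝒟, 0 < ∏ l ∈ C, g l := fun C hC => Finset.prod_pos fun l hl => hg C hC l hl
  -- the sets `E` disjoint from `A` with `A ∪ E ∈ 𝒟`
  set ℰ : Finset (Finset ℕ) := (𝒟.filter (fun C => A ⊆ C)).image (fun C => C \ A) with hℰ
  have hmem : ∀ E ∈ ℰ, Disjoint A E ∧ A ∪ E ∈ 𝒟 := by
    intro E hE
    obtain ⟨C, hC, rfl⟩ := Finset.mem_image.1 hE
    obtain ⟨hC1, hC2⟩ := Finset.mem_filter.1 hC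
    refine ⟨Finset.disjoint_sdiff, ?_⟩
    rwa [Finset.union_sdiff_of_subset hC2]
  have hS : ∑ C ∈ 𝒟.filter (fun C => A ⊆ C), ∏ l ∈ C, g l =
      (∏ l ∈ A, g l) * ∑ E ∈ ℰ, ∏ l ∈ E, g l := by
    rw [hℰ, Finset.sum_image, Finset.mul_sum]
    · refine Finset.sum_congr rfl fun C hC => ?_
      rw [mul_comm]
      exact (Finset.prod_sdiff (Finset.mem_filter.1 hC).2).symm
    · intro C hC C' hC' h
      have h1 : C \ A = C' \ A := h
      rw [← Finset.union_sdiff_of_subset (Finset.mem_filter.1 hC).2,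
        ← Finset.union_sdiff_of_subset (Finset.mem_filter.1 hC').2, h1]
  have hlow : (∏ l ∈ A, (1 + g l)) * ∑ E ∈ ℰ, ∏ l ∈ E, g l ≤ J 𝒟 g := by
    rw [Finset.prod_one_add, Finset.sum_mul_sum]
    rw [← Finset.sum_product']
    have hinj : Set.InjOn (fun q : Finset ℕ × Finset ℕ => q.1 ∪ q.2)
        ((A.powerset ×ˢ ℰ : Finset (Finset ℕ × Finset ℕ)) : Set (Finset ℕ × Finset ℕ)) := by
      rintro ⟨B, E⟩ hBE ⟨B', E'⟩ hBE' h
      obtain ⟨h1, h2⟩ := Finset.mem_product.1 (Finset.mem_coe.1 hBE)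
      obtain ⟨h1', h2'⟩ := Finset.mem_product.1 (Finset.mem_coe.1 hBE')
      have h3 : B ∪ E = B' ∪ E' := h
      have d1 := (hmem E h2).1
      have d2 := (hmem E' h2').1
      have b1 : B ⊆ A := Finset.mem_powerset.1 h1
      have b2 : B' ⊆ A := Finset.mem_powerset.1 h1'
      have k1 : (B ∪ E) ∩ A = B := by
        rw [Finset.union_inter_distrib_right, Finset.inter_eq_left.2 b1,
          Finset.disjoint_iff_inter_eq_empty.1 d1.symm, Finset.union_empty]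
      have k2 : (B' ∪ E') ∩ A = B' := by
        rw [Finset.union_inter_distrib_right, Finset.inter_eq_left.2 b2,
          Finset.disjoint_iff_inter_eq_empty.1 d2.symm, Finset.union_empty]
      have k3 : (B ∪ E) \ A = E := by
        rw [Finset.union_sdiff_distrib, Finset.sdiff_eq_empty_iff_subset.2 b1,
          Finset.empty_union, Finset.sdiff_eq_self_of_disjoint d1.symm]
      have k4 : (B' ∪ E') \ A = E' := by
        rw [Finset.union_sdiff_distrib, Finset.sdiff_eq_empty_iff_subset.2 b2,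
          Finset.empty_union, Finset.sdiff_eq_self_of_disjoint d2.symm]
      have hB : B = B' := by rw [← k1, ← k2, h3]
      have hE : E = E' := by rw [← k3, ← k4, h3]
      rw [hB, hE]
    have hterm : ∀ q ∈ A.powerset ×ˢ ℰ, (∏ l ∈ q.1, g l) * ∏ l ∈ q.2, g l =
        ∏ l ∈ q.1 ∪ q.2, g l := by
      rintro ⟨B, E⟩ hBE
      obtain ⟨h1, h2⟩ := Finset.mem_product.1 hBE
      exact (Finset.prod_union (Finset.disjoint_of_subset_left (Finset.mem_powerset.1 h1)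
        (hmem E h2).1)).symm
    rw [Finset.sum_congr rfl hterm, ← Finset.sum_image (f := fun C => ∏ l ∈ C, g l) hinj]
    refine Finset.sum_le_sum_of_subset_of_nonneg ?_ fun C hC _ => (hpos C hC).le
    intro C hC
    obtain ⟨⟨B, E⟩, hBE, rfl⟩ := Finset.mem_image.1 hC
    obtain ⟨h1, h2⟩ := Finset.mem_product.1 hBE
    exact hdown _ (hmem E h2).2 _ (Finset.union_subset_union (Finset.mem_powerset.1 h1)
      (Finset.Subset.refl _))
  have hE0 : 0 ≤ ∑ E ∈ ℰ, ∏ l ∈ E, g l := Finset.sum_nonneg fun E hE =>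
    (hpos E (hdown _ (hmem E hE).2 _ Finset.subset_union_right)).le
  have hνA : 0 < ∏ l ∈ A, ν l := Finset.prod_pos fun l hl => hν A hA l hl
  have hgA := hpos A hA
  have hkey : (∏ l ∈ A, ν l)⁻¹ * ∏ l ∈ A, g l = ∏ l ∈ A, (1 + g l) := by
    rw [← Finset.prod_inv_distrib, ← Finset.prod_mul_distrib]
    refine Finset.prod_congr rfl fun l hl => ?_
    rw [← hgν A hA l hl, add_mul, one_mul, inv_mul_cancel₀ (hg A hA l hl).ne', add_comm]
  rw [lam, abs_div, abs_of_pos hJ, div_le_one hJ, abs_mul, abs_mul, abs_pow, abs_neg, abs_one,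
    one_pow, one_mul, hS, abs_of_pos (inv_pos.2 hνA), abs_of_nonneg (mul_nonneg hgA.le hE0),
    ← mul_assoc, hkey]
  exact hlow

end Weights

/-! ### Counting -/

theorem count_ap (M q a : ℕ) (hq : 0 < q) :
    |((((range M).filter (fun w => w ≡ a [MOD q])).card : ℕ) : ℝ) - (M : ℝ) / q| ≤ 1 := by
  rw [← Nat.count_eq_card_filter_range, Nat.count_modEq_card _ hq]
  have hq' : (0 : ℝ) < q := by exact_mod_cast hq
  have h1 : (M : ℝ) = q * (M / q : ℕ) + (M % q : ℕ) := by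
    exact_mod_cast (Nat.div_add_mod M q).symm
  have h2 : ((M % q : ℕ) : ℝ) < q := by exact_mod_cast Nat.mod_lt M hq
  have h3 : (0 : ℝ) ≤ ((M % q : ℕ) : ℝ) := Nat.cast_nonneg _
  have h4 : (M : ℝ) / q = (M / q : ℕ) + ((M % q : ℕ) : ℝ) / q := by
    nth_rewrite 1 [h1]
    field_simp
  have h5 : ((M % q : ℕ) : ℝ) / q < 1 := (div_lt_one hq').2 h2
  have h6 : 0 ≤ ((M % q : ℕ) : ℝ) / q := div_nonneg h3 hq'.le
  rw [h4]
  push_cast
  rw [abs_le]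
  split_ifs
  · constructor <;> linarith
  · constructor <;> linarith

/-- the number of `w < M` in a progression, and in forbidden classes for all `l ∈ A` -/
theorem count_hit (Ω : ℕ → Finset ℕ) (M : ℕ) (A : Finset ℕ)
    (hA : ∀ l ∈ A, l.Prime ∧ ∀ r ∈ Ω l, r < l) :
    ∀ q a : ℕ, 0 < q → (∀ l ∈ A, q.Coprime l) →
      |((((range M).filter (fun w => w ≡ a [MOD q] ∧ ∀ l ∈ A, w % l ∈ Ω l)).card : ℕ) : ℝ) -
        (M : ℝ) / q * ∏ l ∈ A, ((Ω l).card : ℝ) / l| ≤ ∏ l ∈ A, ((Ω l).card : ℝ) := by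
  induction A using Finset.induction_on with
  | empty =>
    intro q a hq _
    simp only [Finset.notMem_empty, IsEmpty.forall_iff, implies_true, and_true,
      Finset.prod_empty, mul_one]
    exact count_ap M q a hq
  | insert l A hl ih =>
    intro q a hq hcop
    have hlp : l.Prime := (hA l (Finset.mem_insert_self l A)).1
    have hlΩ := (hA l (Finset.mem_insert_self l A)).2
    have hA' : ∀ k ∈ A, k.Prime ∧ ∀ r ∈ Ω k, r < k := fun k hk =>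
      hA k (Finset.mem_insert_of_mem hk)
    have hql : q.Coprime l := hcop l (Finset.mem_insert_self l A)
    have hq' : (0 : ℝ) < q := by exact_mod_cast hq
    have hl' : (0 : ℝ) < l := by exact_mod_cast hlp.pos
    rw [Finset.prod_insert hl, Finset.prod_insert hl]
    -- split according to the class modulo `l`
    have hfib : ((range M).filter
        (fun w => w ≡ a [MOD q] ∧ ∀ k ∈ insert l A, w % k ∈ Ω k)).card =
        ∑ r ∈ Ω l, ((range M).filter (fun w => w ≡ (Nat.chineseRemainder hql a r : ℕ)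
          [MOD (q * l)] ∧ ∀ k ∈ A, w % k ∈ Ω k)).card := by
      rw [Finset.card_eq_sum_card_fiberwise (f := fun w => w % l) (t := Ω l)]
      · refine Finset.sum_congr rfl fun r hr => ?_
        congr 1
        ext w
        simp only [Finset.mem_filter, Finset.mem_range, Finset.forall_mem_insert]
        have e1 : w ≡ (Nat.chineseRemainder hql a r : ℕ) [MOD (q * l)] ↔
            w ≡ a [MOD q] ∧ w ≡ r [MOD l] := by
          rw [← Nat.modEq_and_modEq_iff_modEq_mul hql]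
          have c1 := (Nat.chineseRemainder hql a r).2
          constructor
          · rintro ⟨h1, h2⟩
            exact ⟨h1.trans c1.1, h2.trans c1.2⟩
          · rintro ⟨h1, h2⟩
            exact ⟨h1.trans c1.1.symm, h2.trans c1.2.symm⟩
        have e2 : w ≡ r [MOD l] ↔ w % l = r := by
          unfold Nat.ModEq
          rw [Nat.mod_eq_of_lt (hlΩ r hr)]
        rw [e1, e2]
        constructor
        · rintro ⟨⟨h1, h2, h3, h4⟩, h5⟩
          exact ⟨h1, ⟨h2, h5⟩, h4⟩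
        · rintro ⟨h1, ⟨h2, h3⟩, h4⟩
          exact ⟨⟨h1, h2, by rw [h3]; exact hr, h4⟩, h3⟩
      · intro w hw
        have hw' := (Finset.mem_filter.1 (Finset.mem_coe.1 hw)).2.2
        exact hw' l (Finset.mem_insert_self l A)
    have hb : ∀ r ∈ Ω l, |((((range M).filter
        (fun w => w ≡ (Nat.chineseRemainder hql a r : ℕ) [MOD (q * l)] ∧
          ∀ k ∈ A, w % k ∈ Ω k)).card : ℕ) : ℝ) -
        (M : ℝ) / (q * l : ℕ) * ∏ k ∈ A, ((Ω k).card : ℝ) / k| ≤ ∏ k ∈ A, ((Ω k).card : ℝ) := by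
      intro r _
      refine ih hA' (q * l) _ (Nat.mul_pos hq hlp.pos) fun k hk => ?_
      refine Nat.Coprime.mul_left (hcop k (Finset.mem_insert_of_mem hk)) ?_
      rw [Nat.coprime_primes hlp (hA' k hk).1]
      rintro rfl
      exact hl hk
    have hmain : (M : ℝ) / q * (((Ω l).card : ℝ) / l * ∏ k ∈ A, ((Ω k).card : ℝ) / k) =
        ∑ _r ∈ Ω l, (M : ℝ) / (q * l : ℕ) * ∏ k ∈ A, ((Ω k).card : ℝ) / k := by
      rw [Finset.sum_const, nsmul_eq_mul]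
      push_cast
      field_simp
    rw [hfib, hmain]
    push_cast
    rw [← Finset.sum_sub_distrib]
    refine (Finset.abs_sum_le_sum_abs _ _).trans ?_
    refine (Finset.sum_le_sum fun r hr => ?_).trans
      (le_of_eq (by rw [Finset.sum_const, nsmul_eq_mul] :
        ∑ _r ∈ Ω l, ∏ k ∈ A, ((Ω k).card : ℝ) = ((Ω l).card : ℝ) * ∏ k ∈ A, ((Ω k).card : ℝ)))
    have := hb r hr
    push_cast at this
    exact this

theorem count_hit' (Ω : ℕ → Finset ℕ) (M : ℕ) (A : Finset ℕ)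
    (hA : ∀ l ∈ A, l.Prime ∧ ∀ r ∈ Ω l, r < l) :
    |((((range M).filter (fun w => ∀ l ∈ A, w % l ∈ Ω l)).card : ℕ) : ℝ) -
      (M : ℝ) * ∏ l ∈ A, ((Ω l).card : ℝ) / l| ≤ ∏ l ∈ A, ((Ω l).card : ℝ) := by
  have h := count_hit Ω M A hA 1 0 one_pos fun l _ => Nat.coprime_one_left l
  simp only [Nat.modEq_one, true_and, Nat.cast_one, div_one] at h
  exact h

/-- the sieve, with sets of primes -/
theorem sieve_sets (Ω : ℕ → Finset ℕ) (M : ℕ) (P : Finset ℕ) (𝒟 : Finset (Finset ℕ))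
    (hP : ∀ l ∈ P, l.Prime ∧ (∀ r ∈ Ω l, r < l) ∧ 1 ≤ (Ω l).card ∧ (Ω l).card < l)
    (h𝒟 : ∀ A ∈ 𝒟, A ⊆ P) (hdown : ∀ A ∈ 𝒟, ∀ B ⊆ A, B ∈ 𝒟) (hempty : ∅ ∈ 𝒟) :
    (((range M).filter (fun w => ∀ l ∈ P, w % l ∉ Ω l)).card : ℝ) ≤
      M / (∑ A ∈ 𝒟, ∏ l ∈ A, ((Ω l).card : ℝ) / l) +
        ∑ A ∈ 𝒟, ∑ B ∈ 𝒟, ∏ l ∈ A ∪ B, ((Ω l).card : ℝ) := by
  obtain ⟨ν, hνdef⟩ : ∃ ν : ℕ → ℝ, ∀ l, ν l = ((Ω l).card : ℝ) / l := ⟨_, fun l => rfl⟩
  obtain ⟨g, hgdef⟩ : ∃ g : ℕ → ℝ, ∀ l, g l = ν l / (1 - ν l) := ⟨_, fun l => rfl⟩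
  have hν0 : ∀ l ∈ P, 0 < ν l ∧ ν l < 1 := by
    intro l hl
    obtain ⟨h1, -, h3, h4⟩ := hP l hl
    have hl0 : (0 : ℝ) < l := by exact_mod_cast h1.pos
    rw [hνdef]
    exact ⟨div_pos (by exact_mod_cast h3) hl0, (div_lt_one hl0).2 (by exact_mod_cast h4)⟩
  have hν : ∀ A ∈ 𝒟, ∀ l ∈ A, 0 < ν l := fun A hA l hl => (hν0 l (h𝒟 A hA hl)).1
  have hg : ∀ A ∈ 𝒟, ∀ l ∈ A, 0 < g l := by
    intro A hA l hl
    obtain ⟨h1, h2⟩ := hν0 l (h𝒟 A hA hl)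
    rw [hgdef]
    exact div_pos h1 (by linarith)
  have hgν : ∀ A ∈ 𝒟, ∀ l ∈ A, 1 + (g l)⁻¹ = (ν l)⁻¹ := by
    intro A hA l hl
    obtain ⟨h1, h2⟩ := hν0 l (h𝒟 A hA hl)
    have h3 : 1 - ν l ≠ 0 := by linarith
    rw [hgdef, inv_div]
    field_simp
    ring
  have hpos : ∀ C ∈ 𝒟, 0 < ∏ l ∈ C, g l := fun C hC => Finset.prod_pos fun l hl => hg C hC l hl
  have hJ : 0 < J 𝒟 g := Finset.sum_pos hpos ⟨∅, hempty⟩
  -- `J` is at least `G`
  have hG0 : 0 < ∑ A ∈ 𝒟, ∏ l ∈ A, ν l :=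
    Finset.sum_pos (fun A hA => Finset.prod_pos fun l hl => hν A hA l hl) ⟨∅, hempty⟩
  have hGJ : ∑ A ∈ 𝒟, ∏ l ∈ A, ν l ≤ J 𝒟 g := by
    refine Finset.sum_le_sum fun A hA => Finset.prod_le_prod (fun l hl => (hν A hA l hl).le)
      fun l hl => ?_
    obtain ⟨h1, h2⟩ := hν0 l (h𝒟 A hA hl)
    rw [hgdef, le_div_iff₀ (by linarith)]
    nlinarith
  -- the weights
  obtain ⟨w, hw⟩ : ∃ w : Finset ℕ → ℝ, w = lam 𝒟 ν g := ⟨_, rfl⟩
  have hw0 : w ∅ = 1 := by rw [hw]; exact lam_empty hJ.ne'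
  have hw1 : ∀ A ∈ 𝒟, |w A| ≤ 1 := by
    intro A hA
    rw [hw]
    exact abs_lam_le hdown hg hν hgν hJ hA
  have hw2 : ∑ A ∈ 𝒟, ∑ B ∈ 𝒟, w A * w B * ∏ l ∈ A ∪ B, ν l = 1 / J 𝒟 g := by
    rw [hw]
    exact main_term hdown hg hν hgν hJ
  -- the upper bound of the indicator function
  have h1 : (((range M).filter (fun w => ∀ l ∈ P, w % l ∉ Ω l)).card : ℝ) ≤
      ∑ x ∈ range M, (∑ A ∈ 𝒟, if (∀ l ∈ A, x % l ∈ Ω l) then w A else 0) ^ 2 := by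
    rw [Finset.card_filter]
    push_cast
    refine Finset.sum_le_sum fun x _ => ?_
    split_ifs with hx
    · have e1 : ∑ A ∈ 𝒟, (if (∀ l ∈ A, x % l ∈ Ω l) then w A else 0) = w ∅ := by
        rw [Finset.sum_eq_single_of_mem ∅ hempty]
        · rw [if_pos]
          intro l hl
          exact absurd hl (Finset.notMem_empty l)
        · intro A hA hne
          rw [if_neg]
          intro h2
          obtain ⟨l, hl⟩ := Finset.nonempty_iff_ne_empty.2 hne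
          exact hx l (h𝒟 A hA hl) (h2 l hl)
      rw [e1, hw0, one_pow]
    · exact sq_nonneg _
  -- expansion
  have h2 : ∑ x ∈ range M, (∑ A ∈ 𝒟, if (∀ l ∈ A, x % l ∈ Ω l) then w A else 0) ^ 2 =
      ∑ A ∈ 𝒟, ∑ B ∈ 𝒟, w A * w B *
        (((range M).filter (fun x => ∀ l ∈ A ∪ B, x % l ∈ Ω l)).card : ℝ) := by
    have e1 : ∀ x ∈ range M, (∑ A ∈ 𝒟, if (∀ l ∈ A, x % l ∈ Ω l) then w A else 0) ^ 2 =
        ∑ A ∈ 𝒟, ∑ B ∈ 𝒟, w A * w B * (if (∀ l ∈ A ∪ B, x % l ∈ Ω l) then 1 else 0) := by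
      intro x _
      rw [sq, Finset.sum_mul_sum]
      refine Finset.sum_congr rfl fun A _ => Finset.sum_congr rfl fun B _ => ?_
      by_cases hA : ∀ l ∈ A, x % l ∈ Ω l
      · by_cases hB : ∀ l ∈ B, x % l ∈ Ω l
        · rw [if_pos hA, if_pos hB, if_pos, mul_one]
          intro l hl
          rcases Finset.mem_union.1 hl with h | h
          · exact hA l h
          · exact hB l h
        · have hAB : ¬ ∀ l ∈ A ∪ B, x % l ∈ Ω l := fun h =>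
            hB fun l hl => h l (Finset.mem_union_right _ hl)
          rw [if_neg hB, if_neg hAB, mul_zero, mul_zero]
      · have hAB : ¬ ∀ l ∈ A ∪ B, x % l ∈ Ω l := fun h =>
          hA fun l hl => h l (Finset.mem_union_left _ hl)
        rw [if_neg hA, if_neg hAB, mul_zero, zero_mul]
    rw [Finset.sum_congr rfl e1, Finset.sum_comm]
    refine Finset.sum_congr rfl fun A _ => ?_
    rw [Finset.sum_comm]
    refine Finset.sum_congr rfl fun B _ => ?_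
    rw [← Finset.mul_sum, Finset.card_filter]
    push_cast
    rfl
  -- the error term
  have h3 : ∀ A ∈ 𝒟, ∀ B ∈ 𝒟, w A * w B *
      (((range M).filter (fun x => ∀ l ∈ A ∪ B, x % l ∈ Ω l)).card : ℝ) ≤
      (M : ℝ) * (w A * w B * ∏ l ∈ A ∪ B, ν l) + ∏ l ∈ A ∪ B, ((Ω l).card : ℝ) := by
    intro A hA B hB
    have hAB : ∀ l ∈ A ∪ B, l ∈ P := fun l hl => by
      rcases Finset.mem_union.1 hl with h | h
      · exact h𝒟 A hA h
      · exact h𝒟 B hB h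
    have e1 := count_hit' Ω M (A ∪ B) fun l hl => ⟨(hP l (hAB l hl)).1, (hP l (hAB l hl)).2.1⟩
    have e2 : ∏ l ∈ A ∪ B, ((Ω l).card : ℝ) / l = ∏ l ∈ A ∪ B, ν l :=
      Finset.prod_congr rfl fun l _ => (hνdef l).symm
    rw [e2] at e1
    have e3 : |w A * w B| ≤ 1 := by
      rw [abs_mul]
      exact mul_le_one₀ (hw1 A hA) (abs_nonneg _) (hw1 B hB)
    have e4 : |w A * w B * ((((range M).filter
        (fun x => ∀ l ∈ A ∪ B, x % l ∈ Ω l)).card : ℝ) - (M : ℝ) * ∏ l ∈ A ∪ B, ν l)| ≤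
        ∏ l ∈ A ∪ B, ((Ω l).card : ℝ) := by
      rw [abs_mul]
      calc |w A * w B| * _ ≤ 1 * ∏ l ∈ A ∪ B, ((Ω l).card : ℝ) :=
            mul_le_mul e3 e1 (abs_nonneg _) zero_le_one
        _ = _ := one_mul _
    have e5 := (le_abs_self _).trans e4
    linarith [e5]
  -- conclusion
  have h4 : ∑ A ∈ 𝒟, ∑ B ∈ 𝒟, w A * w B *
      (((range M).filter (fun x => ∀ l ∈ A ∪ B, x % l ∈ Ω l)).card : ℝ) ≤
      (M : ℝ) * (1 / J 𝒟 g) + ∑ A ∈ 𝒟, ∑ B ∈ 𝒟, ∏ l ∈ A ∪ B, ((Ω l).card : ℝ) := by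
    rw [← hw2, Finset.mul_sum, ← Finset.sum_add_distrib]
    refine Finset.sum_le_sum fun A hA => ?_
    rw [Finset.mul_sum, ← Finset.sum_add_distrib]
    exact Finset.sum_le_sum fun B hB => h3 A hA B hB
  have h5 : (M : ℝ) * (1 / J 𝒟 g) ≤ M / (∑ A ∈ 𝒟, ∏ l ∈ A, ((Ω l).card : ℝ) / l) := by
    have e1 : ∑ A ∈ 𝒟, ∏ l ∈ A, ((Ω l).card : ℝ) / l = ∑ A ∈ 𝒟, ∏ l ∈ A, ν l :=
      Finset.sum_congr rfl fun A _ => Finset.prod_congr rfl fun l _ => (hνdef l).symm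
    rw [e1, mul_one_div]
    exact div_le_div_of_nonneg_left (Nat.cast_nonneg M) hG0 hGJ
  linarith [h1, h2, h4, h5]

/-! ### From sets of primes to squarefree numbers -/

/-- the sets of primes with product at most `D` -/
noncomputable def fam (P : Finset ℕ) (D : ℕ) : Finset (Finset ℕ) :=
  P.powerset.filter (fun A => ∏ l ∈ A, l ≤ D)

open scoped Classical in
theorem mem_sfs {P : Finset ℕ} {D s : ℕ} : s ∈ sfs P D ↔
    (1 ≤ s ∧ s ≤ D) ∧ Squarefree s ∧ ∀ l : ℕ, l.Prime → l ∣ s → l ∈ P := by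
  rw [sfs, Finset.mem_filter, Finset.mem_Icc]

theorem sfs_subset (P : Finset ℕ) (D : ℕ) : sfs P D ⊆ Finset.Icc 1 D := fun s hs =>
  Finset.mem_Icc.2 (mem_sfs.1 hs).1

theorem sum_sfs (P : Finset ℕ) (hP : ∀ l ∈ P, l.Prime) (D : ℕ) (h : ℕ → ℝ) :
    ∑ s ∈ sfs P D, ∏ l ∈ s.primeFactors, h l = ∑ A ∈ fam P D, ∏ l ∈ A, h l := by
  have hprod : ∀ A ∈ fam P D, (∏ l ∈ A, l).primeFactors = A := fun A hA =>
    Nat.primeFactors_prod fun l hl => hP l (Finset.mem_powerset.1 (Finset.mem_filter.1 hA).1 hl)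
  refine Finset.sum_bij' (fun s _ => s.primeFactors) (fun A _ => ∏ l ∈ A, l) ?_ ?_ ?_ ?_ ?_
  · intro s hs
    obtain ⟨⟨h1, h2⟩, h3, h4⟩ := mem_sfs.1 hs
    rw [fam, Finset.mem_filter, Finset.mem_powerset, Nat.prod_primeFactors_of_squarefree h3]
    exact ⟨fun l hl => h4 l (Nat.prime_of_mem_primeFactors hl) (Nat.dvd_of_mem_primeFactors hl),
      h2⟩
  · intro A hA
    have hA' := hA
    rw [fam, Finset.mem_filter, Finset.mem_powerset] at hA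
    have hpr : ∀ l ∈ A, l.Prime := fun l hl => hP l (hA.1 hl)
    refine mem_sfs.2 ⟨⟨Finset.prod_pos fun l hl => (hpr l hl).pos, hA.2⟩, ?_, ?_⟩
    · refine Finset.squarefree_prod_of_pairwise_isCoprime ?_ fun l hl => (hpr l hl).squarefree
      intro l hl k hk hne
      exact Nat.coprime_iff_isRelPrime.1 ((Nat.coprime_primes (hpr l hl) (hpr k hk)).2 hne)
    · intro l hl hd
      obtain ⟨k, hk, hlk⟩ := (Prime.dvd_finsetProd_iff hl.prime _).1 hd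
      rw [(Nat.prime_dvd_prime_iff_eq hl (hpr k hk)).1 hlk]
      exact hA.1 hk
  · intro s hs
    exact Nat.prod_primeFactors_of_squarefree (mem_sfs.1 hs).2.1
  · intro A hA
    exact hprod A hA
  · intro s _
    rfl

/-- NSIEVE -/
theorem nsieve : NsieveStmt := by
  intro P Ω M D hD hP
  have hpr : ∀ l ∈ P, l.Prime := fun l hl => (hP l hl).1
  have hsub : ∀ A ∈ fam P D, A ⊆ P := fun A hA =>
    Finset.mem_powerset.1 (Finset.mem_filter.1 hA).1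
  have hdown : ∀ A ∈ fam P D, ∀ B ⊆ A, B ∈ fam P D := by
    intro A hA B hBA
    rw [fam, Finset.mem_filter, Finset.mem_powerset] at hA ⊢
    refine ⟨hBA.trans hA.1, le_trans ?_ hA.2⟩
    exact Finset.prod_le_prod_of_subset_of_one_le' hBA fun l hl _ => (hpr l (hA.1 hl)).one_le
  have hempty : ∅ ∈ fam P D := by
    rw [fam, Finset.mem_filter]
    exact ⟨Finset.empty_mem_powerset P, by simpa using hD⟩
  have h1 := sieve_sets Ω M P (fam P D) (fun l hl => ⟨(hP l hl).1, (hP l hl).2.1,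
    (hP l hl).2.2.2.1, (hP l hl).2.2.2.2⟩) hsub hdown hempty
  rw [← sum_sfs P hpr D (fun l => ((Ω l).card : ℝ) / l)] at h1
  -- the error term
  have h2 : ∀ A ∈ fam P D, ∀ B ∈ fam P D, ∏ l ∈ A ∪ B, ((Ω l).card : ℝ) ≤
      (∏ l ∈ A, (l : ℝ)) * ∏ l ∈ B, (l : ℝ) := by
    intro A hA B hB
    have hAB : ∀ l ∈ A ∪ B, l ∈ P := fun l hl => by
      rcases Finset.mem_union.1 hl with h | h
      · exact hsub A hA h
      · exact hsub B hB h
    have e1 : ∏ l ∈ A ∪ B, ((Ω l).card : ℝ) ≤ ∏ l ∈ A ∪ B, (l : ℝ) :=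
      Finset.prod_le_prod (fun l _ => Nat.cast_nonneg _) fun l hl => by
        exact_mod_cast (hP l (hAB l hl)).2.2.2.2.le
    have e2 : 1 ≤ ∏ l ∈ A ∩ B, (l : ℝ) := by
      have e3 : 1 ≤ ∏ l ∈ A ∩ B, l := Finset.one_le_prod' fun l hl =>
        (hpr l (hsub A hA (Finset.inter_subset_left hl))).one_le
      rw [← Nat.cast_prod]
      exact_mod_cast e3
    have e4 := Finset.prod_union_inter (s₁ := A) (s₂ := B) (f := fun l => (l : ℝ))
    have e5 : (0 : ℝ) ≤ ∏ l ∈ A ∪ B, (l : ℝ) := Finset.prod_nonneg fun l _ => Nat.cast_nonneg l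
    rw [← e4]
    nlinarith [mul_le_mul_of_nonneg_left e2 e5]
  have h3 : ∑ A ∈ fam P D, ∏ l ∈ A, (l : ℝ) ≤ (D : ℝ) ^ 2 := by
    have e1 : ∑ A ∈ fam P D, ∏ l ∈ A, (l : ℝ) = ∑ s ∈ sfs P D, (s : ℝ) := by
      rw [← sum_sfs P hpr D (fun l => (l : ℝ))]
      refine Finset.sum_congr rfl fun s hs => ?_
      rw [← Nat.cast_prod, Nat.prod_primeFactors_of_squarefree (mem_sfs.1 hs).2.1]
    rw [e1]
    calc ∑ s ∈ sfs P D, (s : ℝ) ≤ ∑ s ∈ Finset.Icc 1 D, (s : ℝ) :=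
          Finset.sum_le_sum_of_subset_of_nonneg (sfs_subset P D) fun s _ _ =>
            Nat.cast_nonneg s
      _ ≤ ∑ s ∈ Finset.Icc 1 D, (D : ℝ) := Finset.sum_le_sum fun s hs => by
          exact_mod_cast (Finset.mem_Icc.1 hs).2
      _ = (D : ℝ) ^ 2 := by
          rw [Finset.sum_const, Nat.card_Icc, nsmul_eq_mul, sq]
          simp
  have h4 : ∑ A ∈ fam P D, ∑ B ∈ fam P D, ∏ l ∈ A ∪ B, ((Ω l).card : ℝ) ≤ (D : ℝ) ^ 4 := by
    calc ∑ A ∈ fam P D, ∑ B ∈ fam P D, ∏ l ∈ A ∪ B, ((Ω l).card : ℝ) ≤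
        ∑ A ∈ fam P D, ∑ B ∈ fam P D, (∏ l ∈ A, (l : ℝ)) * ∏ l ∈ B, (l : ℝ) :=
          Finset.sum_le_sum fun A hA => Finset.sum_le_sum fun B hB => h2 A hA B hB
      _ = (∑ A ∈ fam P D, ∏ l ∈ A, (l : ℝ)) * ∑ A ∈ fam P D, ∏ l ∈ A, (l : ℝ) :=
          (Finset.sum_mul_sum _ _ _ _).symm
      _ ≤ (D : ℝ) ^ 2 * (D : ℝ) ^ 2 := mul_le_mul h3 h3
          (Finset.sum_nonneg fun A _ => Finset.prod_nonneg fun l _ => Nat.cast_nonneg l)
          (by positivity)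
      _ = (D : ℝ) ^ 4 := by ring
  have h5 : (((range M).filter (fun w => ∀ l ∈ P, w % l ∉ Ω l)).card : ℝ) ≤
      M / (∑ s ∈ sfs P D, ∏ l ∈ s.primeFactors, ((Ω l).card : ℝ) / l) + (D : ℝ) ^ 4 :=
    h1.trans (by linarith)
  convert h5 using 3

end Pool.Agent.Lib.MP_ba0fa5_ag.H48
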