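import Pool.Agent.Lib.MP_ba0fa5_ag.Iface

/-!
Module GINF: points over `x = ∞`, from the points over `x = 0` with the coordinate `1 / x`.
-/

set_option autoImplicit false

namespace Pool.Agent.Lib.MP_ba0fa5_ag.H48.Inf

open scoped Classical
open IntermediateField

variable {k K : Type} [Field k] [Field K] [Algebra k K]

theorem ratfunc_ext {L : Type} [Field L] [Algebra k L] (f g : RatFunc k →ₐ[k] L)
    (h : f RatFunc.X = g RatFunc.X) : f = g := by
  have h1 : (f.comp (IsScalarTower.toAlgHom k (Polynomial k) (RatFunc k))) =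
      g.comp (IsScalarTower.toAlgHom k (Polynomial k) (RatFunc k)) := by
    refine Polynomial.algHom_ext ?_
    simp only [AlgHom.comp_apply, IsScalarTower.coe_toAlgHom', RatFunc.algebraMap_X]
    exact h
  have h2 : (f : RatFunc k →+* L) = g := by
    refine IsFractionRing.ringHom_ext (A := Polynomial k) fun p => ?_
    exact DFunLike.congr_fun h1 p
  exact AlgHom.coe_ringHom_injective h2

/-- the substitution `X ↦ f` -/
theorem exists_subst (f : RatFunc k) (hf : Transcendental k f) :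
    ∃ σ : RatFunc k →ₐ[k] RatFunc k, σ RatFunc.X = f := by
  refine ⟨(IntermediateField.val _).comp (RatFunc.algEquivOfTranscendental f hf).toAlgHom, ?_⟩
  simp only [AlgHom.comp_apply, IntermediateField.coe_val]
  exact RatFunc.algEquivOfTranscendental_X f hf

/-- change of the coordinate in Kummer data -/
theorem kummer_change {m a b a₁ b₁ : ℕ} {ι : RatFunc k →ₐ[k] K} {y : K}
    (h : Kummer k K m a b ι y) (σ : RatFunc k →ₐ[k] RatFunc k) (hσ : ∀ r, σ (σ r) = r)
    (u : RatFunc k) (hu : u ≠ 0)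
    (heq : u ^ m * (RatFunc.X ^ a * (1 - RatFunc.X) ^ b) =
      σ (RatFunc.X ^ a₁ * (1 - RatFunc.X) ^ b₁)) :
    Kummer k K m a₁ b₁ (ι.comp σ) (ι u * y) := by
  constructor
  · rw [mul_pow, h.eq, ← map_pow, ← map_mul, heq, AlgHom.comp_apply]
  · intro z
    obtain ⟨c, hc, huniq⟩ := h.basis z
    have key : ∀ c' : Fin m → RatFunc k, (∑ i, (ι.comp σ) (c' i) * (ι u * y) ^ (i : ℕ)) =
        ∑ i, ι (σ (c' i) * u ^ (i : ℕ)) * y ^ (i : ℕ) := by
      intro c'
      refine Finset.sum_congr rfl fun i _ => ?_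
      rw [AlgHom.comp_apply, mul_pow, map_mul, map_pow, mul_assoc]
    refine ⟨fun i => σ (c i / u ^ (i : ℕ)), ?_, ?_⟩
    · show z = _
      rw [key, hc]
      refine Finset.sum_congr rfl fun i _ => ?_
      rw [hσ, div_mul_cancel₀ _ (pow_ne_zero _ hu)]
    · intro c' hc'
      have h1 : z = ∑ i, ι (σ (c' i) * u ^ (i : ℕ)) * y ^ (i : ℕ) := by
        rw [← key]
        exact hc'
      have h2 := huniq (fun i => σ (c' i) * u ^ (i : ℕ)) h1
      funext i
      have h3 : σ (c' i) * u ^ (i : ℕ) = c i := congrFun h2 i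
      rw [← h3, mul_div_cancel_right₀ _ (pow_ne_zero _ hu), hσ]

/-- GINF -/
theorem ginf (hz : GzeroStmt) : GinfStmt := by
  intro k K _ _ _ m a b ι y hK hm hζ F _ _ _
  have hm0 : 0 < m := hm.pos
  have hX : (RatFunc.X : RatFunc k) ≠ 0 := RatFunc.X_ne_zero
  obtain ⟨σ, hσX⟩ := exists_subst (RatFunc.X : RatFunc k)⁻¹
    (fun h => RatFunc.transcendental_X (K := k) (IsAlgebraic.inv_iff.1 h))
  have hσ : ∀ r, σ (σ r) = r := by
    have h1 : σ.comp σ = AlgHom.id k (RatFunc k) := by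
      refine ratfunc_ext _ _ ?_
      rw [AlgHom.comp_apply, hσX, map_inv₀, hσX, inv_inv]
      rfl
    intro r
    exact DFunLike.congr_fun h1 r
  -- the exponents
  obtain ⟨e, he⟩ : ∃ e, m = e + 1 := ⟨m - 1, by omega⟩
  set u : RatFunc k := (-1) ^ b * (RatFunc.X⁻¹) ^ (a + b) with hu
  have hu0 : u ≠ 0 := mul_ne_zero (pow_ne_zero _ (neg_ne_zero.2 one_ne_zero))
    (pow_ne_zero _ (inv_ne_zero hX))
  have heq : u ^ m * (RatFunc.X ^ a * (1 - RatFunc.X) ^ b) =
      σ (RatFunc.X ^ (e * (a + b)) * (1 - RatFunc.X) ^ b) := by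
    rw [map_mul, map_pow, map_pow, map_sub, map_one, hσX, hu]
    have e1 : (1 - (RatFunc.X : RatFunc k)⁻¹) = -1 * (1 - RatFunc.X) * (RatFunc.X)⁻¹ := by
      field_simp
      ring
    have e2 : ((-1 : RatFunc k) ^ b) ^ m = (-1) ^ b := by
      rw [← pow_mul, mul_comm, pow_mul, hm.neg_one_pow]
    rw [e1, mul_pow, mul_pow, e2, mul_pow, ← pow_mul, he]
    have e3 : (RatFunc.X : RatFunc k)⁻¹ ^ ((a + b) * (e + 1)) * RatFunc.X ^ a =
        (RatFunc.X)⁻¹ ^ (e * (a + b)) * (RatFunc.X)⁻¹ ^ b := by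
      rw [show (a + b) * (e + 1) = e * (a + b) + b + a by ring, pow_add, pow_add, mul_assoc,
        ← mul_pow, inv_mul_cancel₀ hX, one_pow, mul_one]
    calc (-1 : RatFunc k) ^ b * (RatFunc.X)⁻¹ ^ ((a + b) * (e + 1)) *
          (RatFunc.X ^ a * (1 - RatFunc.X) ^ b) =
        (-1) ^ b * (1 - RatFunc.X) ^ b *
          ((RatFunc.X)⁻¹ ^ ((a + b) * (e + 1)) * RatFunc.X ^ a) := by ring
      _ = _ := by
        rw [e3]
        ring
  have h1 := hz k K m (e * (a + b)) b (ι.comp σ) (ι u * y)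
    (kummer_change hK σ hσ u hu0 heq) hm0 hζ F
  have h2 : (ι.comp σ) RatFunc.X = (ι RatFunc.X)⁻¹ := by
    rw [AlgHom.comp_apply, hσX, map_inv₀]
  rw [h2] at h1
  rw [h1, he, Nat.Coprime.gcd_mul_left_cancel]
  exact Nat.coprime_self_add_right.2 (Nat.coprime_one_right e)

end Pool.Agent.Lib.MP_ba0fa5_ag.H48.Inf
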