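import Pool.Agent.Lib.MP_ba0fa5_ag.Iface

/-!
Module NGOOD: quadruples with pairwise coprime entries.
-/

set_option autoImplicit false

namespace Pool.Agent.Lib.MP_ba0fa5_ag.H48.Good

open scoped Classical
open Finset

theorem mem_qset {S : Set ℕ} {lo hi n : ℕ} :
    n ∈ qset S lo hi ↔ (lo < n ∧ n ≤ hi) ∧ InQ S n := by
  rw [qset, Finset.mem_filter, Finset.mem_Ioc]

/-- sum of reciprocals -/
noncomputable def rs (X : Finset ℕ) : ℝ := ∑ n ∈ X, (1 : ℝ) / n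

theorem rs_nonneg (X : Finset ℕ) : 0 ≤ rs X := Finset.sum_nonneg fun n _ => by positivity

theorem rs_mono {X Y : Finset ℕ} (h : X ⊆ Y) : rs X ≤ rs Y :=
  Finset.sum_le_sum_of_subset_of_nonneg h fun n _ _ => by positivity

/-- multiples of `l` -/
theorem sum_mult_le {T : Set ℕ} {lo hi l : ℕ} (hl : l.Prime) :
    ∑ x ∈ qset T lo hi, (1 : ℝ) / x * (if l ∣ x then 1 else 0) ≤ 1 / l * rs (qset T 0 hi) := by
  have hl0 : (0 : ℝ) < l := by exact_mod_cast hl.pos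
  have h1 : ∑ x ∈ qset T lo hi, (1 : ℝ) / x * (if l ∣ x then 1 else 0) =
      ∑ x ∈ (qset T lo hi).filter (fun x => l ∣ x), (1 : ℝ) / x := by
    rw [Finset.sum_filter]
    refine Finset.sum_congr rfl fun x _ => ?_
    split_ifs <;> simp
  rw [h1]
  have h2 : ∑ x ∈ (qset T lo hi).filter (fun x => l ∣ x), (1 : ℝ) / x =
      ∑ x ∈ (qset T lo hi).filter (fun x => l ∣ x), 1 / l * ((1 : ℝ) / ((x / l : ℕ) : ℝ)) := by
    refine Finset.sum_congr rfl fun x hx => ?_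
    obtain ⟨k, rfl⟩ := (Finset.mem_filter.1 hx).2
    rw [Nat.mul_div_cancel_left k hl.pos]
    push_cast
    rw [div_mul_div_comm, one_mul]
  rw [h2, ← Finset.mul_sum]
  refine mul_le_mul_of_nonneg_left ?_ (by positivity)
  rw [← Finset.sum_image (s := (qset T lo hi).filter (fun x => l ∣ x)) (g := fun x => x / l)
    (f := fun n : ℕ => (1 : ℝ) / n)]
  · refine Finset.sum_le_sum_of_subset_of_nonneg ?_ fun n _ _ => by positivity
    intro n hn
    obtain ⟨x, hx, rfl⟩ := Finset.mem_image.1 hn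
    obtain ⟨hx1, k, rfl⟩ := Finset.mem_filter.1 hx
    obtain ⟨⟨e1, e2⟩, e3, e4⟩ := mem_qset.1 hx1
    rw [Nat.mul_div_cancel_left k hl.pos]
    have hk : k ≠ 0 := by
      rintro rfl
      simp at e3
    refine mem_qset.2 ⟨⟨Nat.pos_of_ne_zero hk, ?_⟩, hk, fun q hq hd => ?_⟩
    · exact (Nat.le_mul_of_pos_left k hl.pos).trans e2
    · exact e4 q hq (hd.mul_left l)
  · intro x hx y hy hxy
    obtain ⟨k, rfl⟩ := (Finset.mem_filter.1 (Finset.mem_coe.1 hx)).2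
    obtain ⟨m, rfl⟩ := (Finset.mem_filter.1 (Finset.mem_coe.1 hy)).2
    have h3 : l * k / l = l * m / l := hxy
    rw [Nat.mul_div_cancel_left k hl.pos, Nat.mul_div_cancel_left m hl.pos] at h3
    rw [h3]

/-- pairs which are not coprime -/
theorem pair_le {T : Set ℕ} {W : ℕ} (hW : 1 ≤ W) (hT : ∀ l ∈ T, W < l) (lo hi lo' hi' : ℕ) :
    ∑ x ∈ qset T lo hi, ∑ y ∈ qset T lo' hi', (1 : ℝ) / x * (1 / y) *
      (if x.Coprime y then 0 else 1) ≤ 1 / W * (rs (qset T 0 hi) * rs (qset T 0 hi')) := by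
  set I : Finset ℕ := (Finset.Ioc W (max W hi)).filter Nat.Prime with hI
  have h1 : ∀ x ∈ qset T lo hi, ∀ y ∈ qset T lo' hi', (1 : ℝ) / x * (1 / y) *
      (if x.Coprime y then 0 else 1) ≤
      ∑ l ∈ I, ((1 : ℝ) / x * (if l ∣ x then 1 else 0)) * ((1 : ℝ) / y * (if l ∣ y then 1 else 0))
      := by
    intro x hx y hy
    have hnn : ∀ l ∈ I, 0 ≤ ((1 : ℝ) / x * (if l ∣ x then 1 else 0)) *
        ((1 : ℝ) / y * (if l ∣ y then 1 else 0)) := by
      intro l _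
      have e1 : (0 : ℝ) ≤ (if l ∣ x then 1 else 0) := by split_ifs <;> norm_num
      have e2 : (0 : ℝ) ≤ (if l ∣ y then 1 else 0) := by split_ifs <;> norm_num
      positivity
    split_ifs with hc
    · rw [mul_zero]
      exact Finset.sum_nonneg hnn
    · obtain ⟨l, hl, hlx, hly⟩ := Nat.Prime.not_coprime_iff_dvd.1 hc
      obtain ⟨⟨e1, e2⟩, e3, e4⟩ := mem_qset.1 hx
      have hlI : l ∈ I := by
        rw [hI, Finset.mem_filter, Finset.mem_Ioc]
        refine ⟨⟨hT l (e4 l hl hlx), ?_⟩, hl⟩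
        exact ((Nat.le_of_dvd (Nat.pos_of_ne_zero e3) hlx).trans e2).trans (le_max_right _ _)
      refine le_trans (le_of_eq ?_) (Finset.single_le_sum hnn hlI)
      rw [if_pos hlx, if_pos hly]
      ring
  calc _ ≤ ∑ x ∈ qset T lo hi, ∑ y ∈ qset T lo' hi',
        ∑ l ∈ I, ((1 : ℝ) / x * (if l ∣ x then 1 else 0)) *
          ((1 : ℝ) / y * (if l ∣ y then 1 else 0)) :=
        Finset.sum_le_sum fun x hx => Finset.sum_le_sum fun y hy => h1 x hx y hy
    _ = ∑ l ∈ I, (∑ x ∈ qset T lo hi, (1 : ℝ) / x * (if l ∣ x then 1 else 0)) *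
          ∑ y ∈ qset T lo' hi', (1 : ℝ) / y * (if l ∣ y then 1 else 0) := by
        have e1 : ∀ x ∈ qset T lo hi, (∑ y ∈ qset T lo' hi',
            ∑ l ∈ I, ((1 : ℝ) / x * (if l ∣ x then 1 else 0)) *
              ((1 : ℝ) / y * (if l ∣ y then 1 else 0))) =
            ∑ l ∈ I, ∑ y ∈ qset T lo' hi', ((1 : ℝ) / x * (if l ∣ x then 1 else 0)) *
              ((1 : ℝ) / y * (if l ∣ y then 1 else 0)) := fun x _ => Finset.sum_comm
        rw [Finset.sum_congr rfl e1, Finset.sum_comm]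
        refine Finset.sum_congr rfl fun l _ => ?_
        rw [Finset.sum_mul_sum]
    _ ≤ ∑ l ∈ I, (1 / (l : ℝ) * rs (qset T 0 hi)) * (1 / l * rs (qset T 0 hi')) := by
        refine Finset.sum_le_sum fun l hl => ?_
        have hlp : l.Prime := (Finset.mem_filter.1 hl).2
        refine mul_le_mul (sum_mult_le hlp) (sum_mult_le hlp) ?_
          (mul_nonneg (by positivity) (rs_nonneg _))
        refine Finset.sum_nonneg fun y _ => ?_
        split_ifs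
        · positivity
        · simp
    _ = (∑ l ∈ I, ((l : ℝ) ^ 2)⁻¹) * (rs (qset T 0 hi) * rs (qset T 0 hi')) := by
        rw [Finset.sum_mul]
        refine Finset.sum_congr rfl fun l _ => ?_
        rw [one_div, sq, mul_inv]
        ring
    _ ≤ 1 / W * (rs (qset T 0 hi) * rs (qset T 0 hi')) := by
        refine mul_le_mul_of_nonneg_right ?_ (mul_nonneg (rs_nonneg _) (rs_nonneg _))
        calc ∑ l ∈ I, ((l : ℝ) ^ 2)⁻¹ ≤ ∑ l ∈ Finset.Ioc W (max W hi), ((l : ℝ) ^ 2)⁻¹ :=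
              Finset.sum_le_sum_of_subset_of_nonneg (Finset.filter_subset _ _)
                fun l _ _ => by positivity
          _ ≤ (W : ℝ)⁻¹ - ((max W hi : ℕ) : ℝ)⁻¹ :=
              sum_Ioc_inv_sq_le_sub (by omega) (le_max_left _ _)
          _ ≤ 1 / W := by
              have : (0 : ℝ) ≤ ((max W hi : ℕ) : ℝ)⁻¹ := by positivity
              rw [one_div]
              linarith

/-- the sum over the quadruples, written as an iterated sum -/
theorem quad_ge {T : Set ℕ} {W : ℕ} (hW : 1 ≤ W) (hT : ∀ l ∈ T, W < l) (lo hi lo' hi' : ℕ) :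
    rs (qset T lo hi) ^ 3 * rs (qset T lo' hi') -
      3 / W * (rs (qset T 0 hi) ^ 3 * rs (qset T 0 hi')) ≤
    ∑ t ∈ (qset T lo hi ×ˢ qset T lo hi ×ˢ qset T lo' hi' ×ˢ
        qset T lo hi).filter (fun t => t.2.2.2.Coprime t.2.2.1 ∧ t.2.2.2.Coprime t.2.1 ∧
          t.2.2.1.Coprime t.2.1),
      (1 : ℝ) / (t.1 * t.2.1 * t.2.2.1 * t.2.2.2) := by
  set N := qset T lo hi with hN
  set U := qset T lo' hi' with hU
  set bN := rs (qset T 0 hi) with hbN
  set bU := rs (qset T 0 hi') with hbU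
  have haN : rs N ≤ bN := rs_mono fun n hn => by
    obtain ⟨⟨e1, e2⟩, e3⟩ := mem_qset.1 hn
    exact mem_qset.2 ⟨⟨by omega, e2⟩, e3⟩
  have haU : rs U ≤ bU := rs_mono fun n hn => by
    obtain ⟨⟨e1, e2⟩, e3⟩ := mem_qset.1 hn
    exact mem_qset.2 ⟨⟨by omega, e2⟩, e3⟩
  have haN0 : 0 ≤ rs N := rs_nonneg _
  have haU0 : 0 ≤ rs U := rs_nonneg _
  have hbN0 : 0 ≤ bN := rs_nonneg _
  have hbU0 : 0 ≤ bU := rs_nonneg _
  have hW0 : (0 : ℝ) ≤ 1 / W := by positivity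
  -- the three pair sums
  obtain ⟨χ, hχ⟩ : ∃ χ : ℕ → ℕ → ℝ, ∀ x y, χ x y = if x.Coprime y then 0 else 1 :=
    ⟨_, fun x y => rfl⟩
  have p1 : ∑ u ∈ U, ∑ x ∈ N, (1 : ℝ) / u * (1 / x) * χ u x ≤ 1 / W * (bU * bN) := by
    simp only [hχ]
    exact pair_le hW hT lo' hi' lo hi
  have p2 : ∑ v ∈ N, ∑ x ∈ N, (1 : ℝ) / v * (1 / x) * χ v x ≤ 1 / W * (bN * bN) := by
    simp only [hχ]
    exact pair_le hW hT lo hi lo hi
  have p3 : ∑ v ∈ N, ∑ u ∈ U, (1 : ℝ) / v * (1 / u) * χ v u ≤ 1 / W * (bN * bU) := by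
    simp only [hχ]
    exact pair_le hW hT lo hi lo' hi'
  -- pointwise
  have h1 : ∑ n ∈ N, ∑ v ∈ N, ∑ u ∈ U, ∑ x ∈ N,
      (1 : ℝ) / n * (1 / v) * (1 / u) * (1 / x) * (1 - χ u x - χ v x - χ v u) ≤
      ∑ t ∈ (N ×ˢ N ×ˢ U ×ˢ N).filter (fun t => t.2.2.2.Coprime t.2.2.1 ∧
        t.2.2.2.Coprime t.2.1 ∧ t.2.2.1.Coprime t.2.1),
        (1 : ℝ) / (t.1 * t.2.1 * t.2.2.1 * t.2.2.2) := by
    rw [Finset.sum_filter, Finset.sum_product]
    refine Finset.sum_le_sum fun n _ => ?_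
    rw [Finset.sum_product]
    refine Finset.sum_le_sum fun v _ => ?_
    rw [Finset.sum_product]
    refine Finset.sum_le_sum fun u _ => Finset.sum_le_sum fun x _ => ?_
    have e0 : (1 : ℝ) / n * (1 / v) * (1 / u) * (1 / x) = 1 / (n * v * u * x) := by
      rw [div_mul_div_comm, div_mul_div_comm, div_mul_div_comm]
      simp
    have e1 : (0 : ℝ) ≤ 1 / (n * v * u * x) := by positivity
    have c1 : 0 ≤ χ u x ∧ 0 ≤ χ v x ∧ 0 ≤ χ v u := by
      rw [hχ, hχ, hχ]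
      refine ⟨?_, ?_, ?_⟩ <;> split_ifs <;> norm_num
    rw [e0]
    by_cases hc : x.Coprime u ∧ x.Coprime v ∧ u.Coprime v
    · rw [if_pos hc]
      have e2 : 1 - χ u x - χ v x - χ v u ≤ 1 := by linarith [c1.1, c1.2.1, c1.2.2]
      exact mul_le_of_le_one_right e1 e2
    · rw [if_neg hc]
      have e2 : 1 - χ u x - χ v x - χ v u ≤ 0 := by
        by_cases h1 : u.Coprime x
        · by_cases h2 : v.Coprime x
          · by_cases h3 : v.Coprime u
            · exact absurd ⟨h1.symm, h2.symm, h3.symm⟩ hc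
            · have : χ v u = 1 := by rw [hχ, if_neg h3]
              linarith [c1.1, c1.2.1]
          · have : χ v x = 1 := by rw [hχ, if_neg h2]
            linarith [c1.1, c1.2.2]
        · have : χ u x = 1 := by rw [hχ, if_neg h1]
          linarith [c1.2.1, c1.2.2]
      exact mul_nonpos_of_nonneg_of_nonpos e1 e2
  refine le_trans ?_ h1
  -- evaluation of the sum
  have h2 : ∑ n ∈ N, ∑ v ∈ N, ∑ u ∈ U, ∑ x ∈ N,
      (1 : ℝ) / n * (1 / v) * (1 / u) * (1 / x) * (1 - χ u x - χ v x - χ v u) =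
      rs N ^ 3 * rs U - rs N ^ 2 * (∑ u ∈ U, ∑ x ∈ N, (1 : ℝ) / u * (1 / x) * χ u x)
        - rs N * rs U * (∑ v ∈ N, ∑ x ∈ N, (1 : ℝ) / v * (1 / x) * χ v x)
        - rs N ^ 2 * (∑ v ∈ N, ∑ u ∈ U, (1 : ℝ) / v * (1 / u) * χ v u) := by
    have e1 : ∀ n v : ℕ, ∑ u ∈ U, ∑ x ∈ N,
        (1 : ℝ) / n * (1 / v) * (1 / u) * (1 / x) * (1 - χ u x - χ v x - χ v u) =
        1 / n * (1 / v * (rs U * rs N) -
          1 / v * (∑ u ∈ U, ∑ x ∈ N, (1 : ℝ) / u * (1 / x) * χ u x) -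
          rs U * (∑ x ∈ N, (1 : ℝ) / v * (1 / x) * χ v x) -
          rs N * (∑ u ∈ U, (1 : ℝ) / v * (1 / u) * χ v u)) := by
      intro n v
      have f1 : rs U * rs N = ∑ u ∈ U, ∑ x ∈ N, (1 : ℝ) / u * (1 / x) := Finset.sum_mul_sum _ _ _ _
      have f2 : rs U * (∑ x ∈ N, (1 : ℝ) / v * (1 / x) * χ v x) =
          ∑ u ∈ U, ∑ x ∈ N, (1 : ℝ) / u * ((1 : ℝ) / v * (1 / x) * χ v x) :=
        Finset.sum_mul_sum _ _ _ _
      have f3 : rs N * (∑ u ∈ U, (1 : ℝ) / v * (1 / u) * χ v u) =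
          ∑ u ∈ U, ∑ x ∈ N, ((1 : ℝ) / v * (1 / u) * χ v u) * (1 / x) := by
        rw [mul_comm]
        exact Finset.sum_mul_sum _ _ _ _
      rw [f1, f2, f3, Finset.mul_sum, Finset.mul_sum, ← Finset.sum_sub_distrib,
        ← Finset.sum_sub_distrib, ← Finset.sum_sub_distrib, Finset.mul_sum]
      refine Finset.sum_congr rfl fun u _ => ?_
      rw [Finset.mul_sum, Finset.mul_sum, ← Finset.sum_sub_distrib,
        ← Finset.sum_sub_distrib, ← Finset.sum_sub_distrib, Finset.mul_sum]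
      refine Finset.sum_congr rfl fun x _ => ?_
      ring
    have e2 : ∑ n ∈ N, ∑ v ∈ N, ∑ u ∈ U, ∑ x ∈ N,
        (1 : ℝ) / n * (1 / v) * (1 / u) * (1 / x) * (1 - χ u x - χ v x - χ v u) =
        rs N * ∑ v ∈ N, (1 / v * (rs U * rs N) -
          1 / v * (∑ u ∈ U, ∑ x ∈ N, (1 : ℝ) / u * (1 / x) * χ u x) -
          rs U * (∑ x ∈ N, (1 : ℝ) / v * (1 / x) * χ v x) -
          rs N * (∑ u ∈ U, (1 : ℝ) / v * (1 / u) * χ v u)) := by
      rw [rs, Finset.sum_mul_sum]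
      exact Finset.sum_congr rfl fun n _ => Finset.sum_congr rfl fun v _ => e1 n v
    rw [e2, Finset.sum_sub_distrib, Finset.sum_sub_distrib, Finset.sum_sub_distrib,
      ← Finset.sum_mul, ← Finset.sum_mul, ← Finset.mul_sum, ← Finset.mul_sum]
    have e3 : ∑ v ∈ N, (1 : ℝ) / v = rs N := rfl
    rw [e3]
    ring
  rw [h2]
  have q1 : rs N ^ 2 * (∑ u ∈ U, ∑ x ∈ N, (1 : ℝ) / u * (1 / x) * χ u x) ≤
      1 / W * (bN ^ 3 * bU) := by
    calc _ ≤ bN ^ 2 * (1 / W * (bU * bN)) := by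
          refine mul_le_mul (pow_le_pow_left₀ haN0 haN 2) p1 ?_ (by positivity)
          refine Finset.sum_nonneg fun u _ => Finset.sum_nonneg fun x _ => ?_
          rw [hχ]
          split_ifs
          · simp
          · positivity
      _ = _ := by ring
  have q2 : rs N * rs U * (∑ v ∈ N, ∑ x ∈ N, (1 : ℝ) / v * (1 / x) * χ v x) ≤
      1 / W * (bN ^ 3 * bU) := by
    calc _ ≤ bN * bU * (1 / W * (bN * bN)) := by
          refine mul_le_mul (mul_le_mul haN haU haU0 hbN0) p2 ?_ (by positivity)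
          refine Finset.sum_nonneg fun u _ => Finset.sum_nonneg fun x _ => ?_
          rw [hχ]
          split_ifs
          · simp
          · positivity
      _ = _ := by ring
  have q3 : rs N ^ 2 * (∑ v ∈ N, ∑ u ∈ U, (1 : ℝ) / v * (1 / u) * χ v u) ≤
      1 / W * (bN ^ 3 * bU) := by
    calc _ ≤ bN ^ 2 * (1 / W * (bN * bU)) := by
          refine mul_le_mul (pow_le_pow_left₀ haN0 haN 2) p3 ?_ (by positivity)
          refine Finset.sum_nonneg fun u _ => Finset.sum_nonneg fun x _ => ?_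
          rw [hχ]
          split_ifs
          · simp
          · positivity
      _ = _ := by ring
  have q4 : 3 / (W : ℝ) * (bN ^ 3 * bU) = 3 * (1 / W * (bN ^ 3 * bU)) := by ring
  rw [q4]
  linarith

theorem rpow_quarter_pow {x : ℝ} (hx : 0 ≤ x) : (x ^ (1 / 4 : ℝ)) ^ 4 = x := by
  rw [← Real.rpow_natCast, ← Real.rpow_mul hx]
  norm_num

/-- NGOOD -/
theorem ngood (hup : NupStmt) : NgoodStmt := by
  intro S K hS hK
  obtain ⟨hK3, c₀, hc₀, hlow⟩ := hK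
  obtain ⟨C, hC⟩ := hup S hS
  set C' : ℝ := max C 1 with hC'
  have hC'0 : 0 < C' := lt_max_of_lt_right one_pos
  -- the choice of `W`
  obtain ⟨W, hW⟩ := exists_nat_ge (max 3 (72 * (K : ℝ) ^ 2 * C' ^ 4 / c₀ ^ 4))
  have hW3 : 3 ≤ W := by exact_mod_cast (le_max_left _ _).trans hW
  have hWc : 72 * (K : ℝ) ^ 2 * C' ^ 4 / c₀ ^ 4 ≤ W := (le_max_right _ _).trans hW
  have hW0 : (0 : ℝ) < W := by exact_mod_cast (by omega : 0 < W)
  have hlogW : 0 < Real.log W := Real.log_pos (by exact_mod_cast (by omega : 1 < W))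
  obtain ⟨y₀, hy₀⟩ := hlow W hW3
  have hK0 : (0 : ℝ) < K := by exact_mod_cast (by omega : 0 < K)
  have hK1 : (1 : ℝ) ≤ K := by exact_mod_cast (by omega : 1 ≤ K)
  refine ⟨c₀ ^ 4 / (2 * Real.log W), by positivity, max (max y₀ W) 3, fun Z hZ => ?_⟩
  have hZy : y₀ ≤ Z := (le_max_left _ _).trans ((le_max_left _ _).trans hZ)
  have hZW : W ≤ Z := (le_max_right _ _).trans ((le_max_left _ _).trans hZ)
  have hZ3 : 3 ≤ Z := (le_max_right _ _).trans hZ
  have hlogZ : 0 < Real.log Z := Real.log_pos (by exact_mod_cast (by omega : 1 < Z))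
  set T := big S W with hT
  have hTW : ∀ l ∈ T, W < l := fun l hl => hl.2
  set q : ℝ := Real.log Z / Real.log W with hq
  have hq0 : 0 < q := by positivity
  -- lower bounds
  have l1 : c₀ * q ^ (1 / 4 : ℝ) ≤ rs (qset T Z (Z ^ K)) := hy₀ Z hZy
  have hU1 : Z ≤ U1 K Z := Nat.le_self_pow (by omega) Z
  have hU12 : U1 K Z ^ K = U2 K Z := by
    rw [U1, U2, ← pow_mul]
  have l2 : c₀ * q ^ (1 / 4 : ℝ) ≤ rs (qset T (U1 K Z) (U2 K Z)) := by
    have e1 := hy₀ (U1 K Z) (hZy.trans hU1)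
    rw [hU12] at e1
    refine le_trans (mul_le_mul_of_nonneg_left ?_ hc₀.le) e1
    refine Real.rpow_le_rpow hq0.le ?_ (by norm_num)
    refine div_le_div_of_nonneg_right ?_ hlogW.le
    exact Real.log_le_log (by exact_mod_cast (by omega : 0 < Z)) (by exact_mod_cast hU1)
  -- upper bounds
  have key : ∀ y : ℕ, Z ≤ y → Real.log y ≤ 12 * (K : ℝ) ^ 2 * Real.log Z →
      rs (qset T 0 y) ≤ C' * (12 * (K : ℝ) ^ 2 * q) ^ (1 / 4 : ℝ) := by
    intro y hy hlog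
    have e1 := (hC W y hW3 (hZW.trans hy)).1
    refine le_trans e1 ?_
    have hlogy : 0 < Real.log y := Real.log_pos (by exact_mod_cast (by omega : 1 < y))
    refine mul_le_mul (le_max_left _ _) ?_ (by positivity) hC'0.le
    refine Real.rpow_le_rpow (by positivity) ?_ (by norm_num)
    rw [hq, ← mul_div_assoc]
    exact div_le_div_of_nonneg_right hlog hlogW.le
  have u1 : rs (qset T 0 (Z ^ K)) ≤ C' * (12 * (K : ℝ) ^ 2 * q) ^ (1 / 4 : ℝ) := by
    refine key _ (Nat.le_self_pow (by omega) Z) ?_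
    push_cast
    rw [Real.log_pow]
    refine mul_le_mul_of_nonneg_right ?_ hlogZ.le
    nlinarith
  have u2 : rs (qset T 0 (U2 K Z)) ≤ C' * (12 * (K : ℝ) ^ 2 * q) ^ (1 / 4 : ℝ) := by
    refine key _ (hU1.trans ?_) ?_
    · rw [← hU12]
      exact Nat.le_self_pow (by omega) _
    · rw [U2]
      push_cast
      rw [Real.log_pow]
      push_cast
      refine mul_le_mul_of_nonneg_right ?_ hlogZ.le
      nlinarith
  have hmain := quad_ge (by omega : 1 ≤ W) hTW Z (Z ^ K) (U1 K Z) (U2 K Z)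
  have m1 : c₀ ^ 4 * q ≤ rs (qset T Z (Z ^ K)) ^ 3 * rs (qset T (U1 K Z) (U2 K Z)) := by
    have e0 : 0 ≤ c₀ * q ^ (1 / 4 : ℝ) := by positivity
    calc c₀ ^ 4 * q = (c₀ * q ^ (1 / 4 : ℝ)) ^ 3 * (c₀ * q ^ (1 / 4 : ℝ)) := by
          rw [← pow_succ, mul_pow, rpow_quarter_pow hq0.le]
      _ ≤ _ := mul_le_mul (pow_le_pow_left₀ e0 l1 3) l2 e0 (pow_nonneg (rs_nonneg _) 3)
  have m2 : rs (qset T 0 (Z ^ K)) ^ 3 * rs (qset T 0 (U2 K Z)) ≤
      C' ^ 4 * (12 * (K : ℝ) ^ 2 * q) := by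
    have e0 : 0 ≤ C' * (12 * (K : ℝ) ^ 2 * q) ^ (1 / 4 : ℝ) := by positivity
    calc _ ≤ (C' * (12 * (K : ℝ) ^ 2 * q) ^ (1 / 4 : ℝ)) ^ 3 *
          (C' * (12 * (K : ℝ) ^ 2 * q) ^ (1 / 4 : ℝ)) :=
          mul_le_mul (pow_le_pow_left₀ (rs_nonneg _) u1 3) u2 (rs_nonneg _) (pow_nonneg e0 3)
      _ = _ := by rw [← pow_succ, mul_pow, rpow_quarter_pow (by positivity)]
  have m3 : 3 / (W : ℝ) * (C' ^ 4 * (12 * (K : ℝ) ^ 2 * q)) ≤ c₀ ^ 4 * q / 2 := by
    rw [div_le_iff₀ (by positivity)] at hWc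
    rw [div_mul_eq_mul_div, div_le_div_iff₀ hW0 (by norm_num)]
    nlinarith [mul_le_mul_of_nonneg_right hWc hq0.le]
  have m4 : 3 / (W : ℝ) * (rs (qset T 0 (Z ^ K)) ^ 3 * rs (qset T 0 (U2 K Z))) ≤
      c₀ ^ 4 * q / 2 := (mul_le_mul_of_nonneg_left m2 (by positivity)).trans m3
  have m5 : c₀ ^ 4 / (2 * Real.log W) * Real.log Z = c₀ ^ 4 * q / 2 := by
    rw [hq]
    field_simp
  rw [m5]
  -- from `T` to `S`
  have hsub : ∀ lo hi : ℕ, qset T lo hi ⊆ qset S lo hi := by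
    intro lo hi n hn
    obtain ⟨e1, e2, e3⟩ := mem_qset.1 hn
    exact mem_qset.2 ⟨e1, e2, fun l hl hd => (e3 l hl hd).1⟩
  have m6 : c₀ ^ 4 * q / 2 ≤ rs (qset T Z (Z ^ K)) ^ 3 * rs (qset T (U1 K Z) (U2 K Z)) -
      3 / (W : ℝ) * (rs (qset T 0 (Z ^ K)) ^ 3 * rs (qset T 0 (U2 K Z))) := by linarith
  refine m6.trans (hmain.trans ?_)
  refine Finset.sum_le_sum_of_subset_of_nonneg ?_ fun t _ _ => by positivity
  exact Finset.filter_subset_filter _ (Finset.product_subset_product (hsub _ _)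
    (Finset.product_subset_product (hsub _ _)
      (Finset.product_subset_product (hsub _ _) (hsub _ _))))

end Pool.Agent.Lib.MP_ba0fa5_ag.H48.Good
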