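import Pool.Agent.Lib.MP_ba0fa5_ag.Iface

/-!
Module NLOW: lower bound for sums of reciprocals of members of `<S_W>`.
-/

set_option autoImplicit false

namespace Pool.Agent.Lib.MP_ba0fa5_ag.H48

open scoped Classical
open Finset

theorem exp_le_one_add {x : ℝ} (hx : 0 ≤ x) : Real.exp (x - x ^ 2) ≤ 1 + x := by
  have h1 := Real.add_one_le_exp (x ^ 2 - x)
  have h2 : Real.exp (x - x ^ 2) * Real.exp (x ^ 2 - x) = 1 := by
    rw [← Real.exp_add]
    simp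
  have h3 : 0 < Real.exp (x - x ^ 2) := Real.exp_pos _
  have h4 : Real.exp (x - x ^ 2) * (x ^ 2 - x + 1) ≤ 1 :=
    (mul_le_mul_of_nonneg_left h1 h3.le).trans h2.le
  have h5 : 0 < x ^ 2 - x + 1 := by nlinarith [sq_nonneg (x - 1 / 2)]
  have h6 : 1 ≤ (1 + x) * (x ^ 2 - x + 1) := by nlinarith [pow_nonneg hx 3]
  exact le_of_mul_le_mul_right (h4.trans h6) h5

theorem prod_lower (P : Finset ℕ) (hP : ∀ l ∈ P, 2 ≤ l) :
    Real.exp (∑ l ∈ P, (1 : ℝ) / l - 1) ≤ ∏ l ∈ P, (1 + 1 / (l : ℝ)) := by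
  have h1 : ∑ l ∈ P, ((1 : ℝ) / l) ^ 2 ≤ 1 := by
    have hsub : P ⊆ Finset.Ioc 1 (P.sup id + 1) := by
      intro l hl
      have e1 : l ≤ P.sup id := Finset.le_sup (f := id) hl
      exact Finset.mem_Ioc.2 ⟨hP l hl, by omega⟩
    calc ∑ l ∈ P, ((1 : ℝ) / l) ^ 2 ≤ ∑ l ∈ Finset.Ioc 1 (P.sup id + 1), ((1 : ℝ) / l) ^ 2 :=
          Finset.sum_le_sum_of_subset_of_nonneg hsub fun l _ _ => by positivity
      _ = ∑ l ∈ Finset.Ioc 1 (P.sup id + 1), ((l : ℝ) ^ 2)⁻¹ :=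
          Finset.sum_congr rfl fun l _ => by rw [div_pow, one_pow, one_div]
      _ ≤ ((1 : ℕ) : ℝ)⁻¹ - ((P.sup id + 1 : ℕ) : ℝ)⁻¹ :=
          sum_Ioc_inv_sq_le_sub one_ne_zero (by omega)
      _ ≤ 1 := by
          have : (0 : ℝ) ≤ ((P.sup id + 1 : ℕ) : ℝ)⁻¹ := by positivity
          rw [Nat.cast_one, inv_one]
          linarith
  calc Real.exp (∑ l ∈ P, (1 : ℝ) / l - 1) ≤
      Real.exp (∑ l ∈ P, ((1 : ℝ) / l - ((1 : ℝ) / l) ^ 2)) := by
        rw [Real.exp_le_exp, Finset.sum_sub_distrib]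
        linarith
    _ = ∏ l ∈ P, Real.exp ((1 : ℝ) / l - ((1 : ℝ) / l) ^ 2) := Real.exp_sum _ _
    _ ≤ ∏ l ∈ P, (1 + 1 / (l : ℝ)) := Finset.prod_le_prod (fun l _ => (Real.exp_pos _).le)
        fun l _ => exp_le_one_add (by positivity)

theorem mem_qset {S : Set ℕ} {lo hi n : ℕ} :
    n ∈ qset S lo hi ↔ (lo < n ∧ n ≤ hi) ∧ InQ S n := by
  rw [qset, Finset.mem_filter, Finset.mem_Ioc]

theorem mem_sfs' {P : Finset ℕ} {D s : ℕ} : s ∈ sfs P D ↔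
    (1 ≤ s ∧ s ≤ D) ∧ Squarefree s ∧ ∀ l : ℕ, l.Prime → l ∣ s → l ∈ P := by
  rw [sfs, Finset.mem_filter, Finset.mem_Icc]

/-- NLOW -/
theorem nlow (hrec : NrecStmt) (hup : NupStmt) (hran : NrankinStmt) : NlowStmt := by
  intro S hS
  obtain ⟨C₁, hC₁⟩ := hrec S hS
  obtain ⟨C₂, hC₂⟩ := hup S hS
  obtain ⟨B, D₀, hB, hran'⟩ := hran
  have hSp : ∀ l ∈ S, l.Prime := fun l hl => (hS.1 l hl).1
  -- the choice of `k`
  set E : ℝ := (1 / 2) * Real.exp (-(2 * C₁) - 1) with hE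
  have hE0 : 0 < E := by positivity
  obtain ⟨k, hk⟩ : ∃ k : ℕ, 2 ≤ k ∧ C₂ + 1 ≤ E * (k : ℝ) ^ (1 / 4 : ℝ) := by
    obtain ⟨k₀, hk₀⟩ := exists_nat_ge ((max ((C₂ + 1) / E) 0) ^ 4)
    refine ⟨max k₀ 2, le_max_right _ _, ?_⟩
    have h1 : (max ((C₂ + 1) / E) 0) ^ 4 ≤ ((max k₀ 2 : ℕ) : ℝ) :=
      hk₀.trans (by exact_mod_cast le_max_left _ _)
    have h0 : 0 ≤ max ((C₂ + 1) / E) 0 := le_max_right _ _
    have h2 : max ((C₂ + 1) / E) 0 ≤ ((max k₀ 2 : ℕ) : ℝ) ^ (1 / 4 : ℝ) := by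
      have h3 := Real.rpow_le_rpow (by positivity) h1 (show (0 : ℝ) ≤ 1 / 4 by norm_num)
      rw [← Real.rpow_natCast, ← Real.rpow_mul h0] at h3
      norm_num at h3
      norm_num
      exact h3
    have h3 : (C₂ + 1) / E ≤ ((max k₀ 2 : ℕ) : ℝ) ^ (1 / 4 : ℝ) := (le_max_left _ _).trans h2
    rw [div_le_iff₀ hE0] at h3
    linarith
  obtain ⟨hk2, hk⟩ := hk
  refine ⟨B * k, by nlinarith, 1, one_pos, fun W hW => ⟨max (max W D₀) 3, fun y hy => ?_⟩⟩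
  have hyW : W ≤ y := (le_max_left _ _).trans ((le_max_left _ _).trans hy)
  have hyD : D₀ ≤ y := (le_max_right _ _).trans ((le_max_left _ _).trans hy)
  have hy3 : 3 ≤ y := (le_max_right _ _).trans hy
  have hlogW : 0 < Real.log W := Real.log_pos (by exact_mod_cast (by omega : 1 < W))
  have hlogy : 0 < Real.log y := Real.log_pos (by exact_mod_cast (by omega : 1 < y))
  have hyk : y ≤ y ^ k := Nat.le_self_pow (by omega) y
  have hyK : y ^ k ≤ y ^ (B * k) := Nat.pow_le_pow_right (by omega) (by nlinarith)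
  have hyBk : (y ^ k) ^ B = y ^ (B * k) := by rw [← pow_mul, mul_comm]
  -- the primes
  set P : Finset ℕ := (Finset.Icc 1 (y ^ k)).filter (fun l => l ∈ S ∧ W < l) with hP
  have hPmem : ∀ l, l ∈ P ↔ (1 ≤ l ∧ l ≤ y ^ k) ∧ l ∈ S ∧ W < l := by
    intro l
    rw [hP, Finset.mem_filter, Finset.mem_Icc]
  have h1 := hran' (y ^ (B * k)) (hyD.trans (hyk.trans hyK)) P (fun _ => 1) (by
    intro l hl
    obtain ⟨⟨-, h2⟩, h3, -⟩ := (hPmem l).1 hl
    exact ⟨hSp l h3, by rw [← hyBk]; exact Nat.pow_le_pow_left h2 B, zero_le_one, one_le_two⟩)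
  -- upper bound of the right side
  have h2 : ∑ s ∈ sfs P (y ^ (B * k)), ∏ l ∈ s.primeFactors, (1 : ℝ) / l ≤
      ∑ n ∈ qset (big S W) 0 (y ^ (B * k)), (1 : ℝ) / n := by
    calc ∑ s ∈ sfs P (y ^ (B * k)), ∏ l ∈ s.primeFactors, (1 : ℝ) / l =
        ∑ s ∈ sfs P (y ^ (B * k)), (1 : ℝ) / s := by
          refine Finset.sum_congr rfl fun s hs => ?_
          rw [Finset.prod_div_distrib, Finset.prod_const_one, ← Nat.cast_prod,
            Nat.prod_primeFactors_of_squarefree (mem_sfs'.1 hs).2.1]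
      _ ≤ _ := by
          refine Finset.sum_le_sum_of_subset_of_nonneg ?_ fun n _ _ => by positivity
          intro s hs
          obtain ⟨⟨e1, e2⟩, -, e3⟩ := mem_sfs'.1 hs
          refine mem_qset.2 ⟨⟨e1, e2⟩, by omega, fun l hl hd => ?_⟩
          exact ((hPmem l).1 (e3 l hl hd)).2
  -- lower bound of the product
  have h3 : Real.exp (∑ l ∈ P, (1 : ℝ) / l - 1) ≤ ∏ l ∈ P, (1 + 1 / (l : ℝ)) :=
    prod_lower P fun l hl => (hSp l ((hPmem l).1 hl).2.1).two_le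
  have h4 : ∑ l ∈ (Finset.Icc 1 (y ^ k)).filter (fun l => l ∈ S), (1 : ℝ) / l =
      ∑ l ∈ P, (1 : ℝ) / l + ∑ l ∈ (Finset.Icc 1 W).filter (fun l => l ∈ S), (1 : ℝ) / l := by
    rw [← Finset.sum_union]
    · refine Finset.sum_congr ?_ fun _ _ => rfl
      ext l
      rw [Finset.mem_union, hPmem, Finset.mem_filter, Finset.mem_filter, Finset.mem_Icc,
        Finset.mem_Icc]
      constructor
      · rintro ⟨e1, e2⟩
        by_cases h : W < l
        · exact Or.inl ⟨e1, e2, h⟩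
        · exact Or.inr ⟨⟨e1.1, by omega⟩, e2⟩
      · rintro (⟨e1, e2, -⟩ | ⟨e1, e2⟩)
        · exact ⟨e1, e2⟩
        · exact ⟨⟨e1.1, by omega⟩, e2⟩
    · rw [Finset.disjoint_left]
      intro l hl hl'
      have e1 := ((hPmem l).1 hl).2.2
      have e2 := (Finset.mem_Icc.1 (Finset.mem_filter.1 hl').1).2
      omega
  have h5 := (abs_le.1 (hC₁ (y ^ k) (by omega)).1).1
  have h6 := (abs_le.1 (hC₁ W hW).1).2
  rw [h4] at h5
  have hlogk : Real.log ((y ^ k : ℕ) : ℝ) = k * Real.log y := by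
    push_cast
    rw [Real.log_pow]
  have hk0 : (0 : ℝ) < k := by exact_mod_cast (by omega : 0 < k)
  have hquot : 0 < k * Real.log y / Real.log W := by positivity
  have h7 : -(2 * C₁) + Real.log (k * Real.log y / Real.log W) / 4 ≤ ∑ l ∈ P, (1 : ℝ) / l := by
    rw [hlogk] at h5
    rw [Real.log_div (by positivity) hlogW.ne']
    linarith
  have h8 : 2 * E * ((k : ℝ) ^ (1 / 4 : ℝ) * (Real.log y / Real.log W) ^ (1 / 4 : ℝ)) ≤
      ∏ l ∈ P, (1 + 1 / (l : ℝ)) := by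
    refine le_trans (le_of_eq ?_) ((Real.exp_le_exp.2 (sub_le_sub_right h7 1)).trans h3)
    rw [← Real.mul_rpow hk0.le (by positivity), ← mul_div_assoc]
    rw [Real.rpow_def_of_pos hquot, hE]
    rw [show 2 * (1 / 2 * Real.exp (-(2 * C₁) - 1)) = Real.exp (-(2 * C₁) - 1) by ring,
      ← Real.exp_add]
    congr 1
    ring
  have h9 : E * ((k : ℝ) ^ (1 / 4 : ℝ) * (Real.log y / Real.log W) ^ (1 / 4 : ℝ)) ≤
      ∑ n ∈ qset (big S W) 0 (y ^ (B * k)), (1 : ℝ) / n := by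
    linarith [h1.trans h2, h8]
  -- the part up to `y`
  have h10 := (hC₂ W y hW hyW).1
  have h11 : ∑ n ∈ qset (big S W) 0 (y ^ (B * k)), (1 : ℝ) / n =
      ∑ n ∈ qset (big S W) 0 y, (1 : ℝ) / n +
        ∑ n ∈ qset (big S W) y (y ^ (B * k)), (1 : ℝ) / n := by
    rw [← Finset.sum_union]
    · refine Finset.sum_congr ?_ fun _ _ => rfl
      ext n
      rw [Finset.mem_union, mem_qset, mem_qset, mem_qset]
      constructor
      · rintro ⟨⟨e1, e2⟩, e3⟩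
        by_cases h : n ≤ y
        · exact Or.inl ⟨⟨e1, h⟩, e3⟩
        · exact Or.inr ⟨⟨by omega, e2⟩, e3⟩
      · rintro (⟨⟨e1, e2⟩, e3⟩ | ⟨⟨e1, e2⟩, e3⟩)
        · exact ⟨⟨e1, by omega⟩, e3⟩
        · exact ⟨⟨by omega, e2⟩, e3⟩
    · rw [Finset.disjoint_left]
      intro n hn hn'
      have e1 := (mem_qset.1 hn).1.2
      have e2 := (mem_qset.1 hn').1.1
      omega
  have h12 : 0 ≤ (Real.log y / Real.log W) ^ (1 / 4 : ℝ) := by positivity
  have h13 := mul_le_mul_of_nonneg_right hk h12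
  rw [h11] at h9
  nlinarith [h9, h10, h13]

end Pool.Agent.Lib.MP_ba0fa5_ag.H48
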